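import Pool.Agent.W601.SQ.Stm

/-! # SQ: independent transversals -/

set_option autoImplicit false
open scoped Cardinal

namespace Pool.Agent.W32.SQ

open Pool.Agent.W601.SQ

/-- the family of the previous values, with `1` -/
noncomputable def vv {I : Type} (r : I → I → Prop) (i : I) (f : ∀ j, r j i → ℝ) :
    Option {j // r j i} → ℝ
  | none => 1
  | some j => f j.1 j.2

lemma card_span (κ : Type) [Nonempty κ] (v : κ → ℝ) (h : #κ < 𝔠) :
    #(Submodule.span ℚ (Set.range v)) < 𝔠 := by
  have h1 : #(Submodule.span ℚ (Set.range v)) ≤ #(κ →₀ ℚ) := by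
    rw [← Finsupp.range_linearCombination]
    exact Cardinal.mk_range_le
  refine lt_of_le_of_lt h1 ?_
  rw [Cardinal.mk_finsupp_of_infinite', Cardinal.mk_denumerable ℚ]
  exact max_lt h Cardinal.aleph0_lt_continuum

lemma ex {I : Type} (Y : I → Set ℝ) (r : I → I → Prop) (i : I) (hY : 𝔠 ≤ #(Y i))
    (hr : #{j // r j i} < 𝔠) (f : ∀ j, r j i → ℝ) :
    ∃ y ∈ Y i, y ∉ Submodule.span ℚ (Set.range (vv r i f)) := by
  by_contra hcon
  push Not at hcon
  have h1 : #(Option {j // r j i}) < 𝔠 := by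
    rw [Cardinal.mk_option]
    exact Cardinal.add_lt_of_lt Cardinal.aleph0_le_continuum hr
      (Cardinal.one_lt_aleph0.trans Cardinal.aleph0_lt_continuum)
  have h2 := card_span _ (vv r i f) h1
  have h3 : #(Y i) ≤ #(Submodule.span ℚ (Set.range (vv r i f))) :=
    Cardinal.mk_le_mk_of_subset (fun y hy => hcon y hy)
  exact absurd (hY.trans h3) (not_le.2 h2)

theorem ti : S_TI := by
  classical
  intro I Y hI hY
  obtain ⟨r, wo, hrI⟩ := Cardinal.exists_ord_eq I
  have hcard : ∀ i, #{j // r j i} < 𝔠 := by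
    intro i
    have h1 := Cardinal.card_typein_lt i hrI
    rw [Ordinal.card_typein] at h1
    exact h1.trans_le hI
  have wf : WellFounded r := wo.toIsWellFounded.wf
  obtain ⟨θ, hθ⟩ : ∃ θ : I → ℝ, ∀ i, θ i ∈ Y i ∧
      θ i ∉ Submodule.span ℚ (Set.range (vv r i (fun j _ => θ j))) := by
    refine ⟨wf.fix (C := fun _ => ℝ)
      (fun i f => Classical.choose (ex Y r i (hY i) (hcard i) f)), fun i => ?_⟩
    rw [wf.fix_eq]
    exact Classical.choose_spec (ex Y r i (hY i) (hcard i) _)
  refine ⟨θ, fun i => (hθ i).1, fun m n hmn => ?_⟩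
  by_contra hm
  have hne : m.support.Nonempty := Finsupp.support_nonempty_iff.2 hm
  obtain ⟨i, hi, hmax⟩ := Finset.exists_max_image m.support (fun j => Ordinal.typein r j) hne
  apply (hθ i).2
  have hr : ∀ j ∈ m.support.erase i, r j i := by
    intro j hj
    have h1 := hmax j (Finset.mem_of_mem_erase hj)
    have h2 := Finset.ne_of_mem_erase hj
    rcases trichotomous_of r j i with h | h | h
    · exact h
    · exact absurd h h2
    · exact absurd ((Ordinal.typein_lt_typein r).2 h) (not_lt.2 h1)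
  have hmi : (m i : ℚ) ≠ 0 := by
    exact_mod_cast Finsupp.mem_support_iff.1 hi
  have hsum : (m i : ℝ) * θ i = n - ∑ j ∈ m.support.erase i, (m j : ℝ) * θ j := by
    have h1 : ip m θ = ∑ j ∈ m.support, (m j : ℝ) * θ j := rfl
    rw [h1, ← Finset.add_sum_erase _ _ hi] at hmn
    linarith
  have hθi : θ i = (m i : ℚ)⁻¹ • ((n : ℚ) • (1 : ℝ) -
      ∑ j ∈ m.support.erase i, (m j : ℚ) • θ j) := by
    have h2 : ((m i : ℚ) : ℝ) ≠ 0 := by exact_mod_cast hmi
    have h3 : ∀ j, (m j : ℚ) • θ j = (m j : ℝ) * θ j := by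
      intro j
      rw [Rat.smul_def]
      push_cast
      rfl
    simp only [h3]
    have h4 : (n : ℚ) • (1 : ℝ) = n := by
      rw [Rat.smul_def]
      push_cast
      ring
    rw [h4, ← hsum, Rat.smul_def]
    push_cast
    push_cast at h2
    field_simp
  rw [hθi]
  refine Submodule.smul_mem _ _ (Submodule.sub_mem _ (Submodule.smul_mem _ _ ?_)
    (Submodule.sum_mem _ fun j hj => Submodule.smul_mem _ _ ?_))
  · exact Submodule.subset_span ⟨none, rfl⟩
  · exact Submodule.subset_span ⟨some ⟨j, hr j hj⟩, rfl⟩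

end Pool.Agent.W32.SQ
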